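import Mathlib

set_option autoImplicit false

/-!
# The 2-rank of `D_{g,h}` can differ from the 2-rank of the translation design of `h`

We disprove the assertion of Q1: in dimension `m = 8` there are bent functions `g, h` with
`g + h` bent and `(g + h)^* = g^* + h^*`, for which the incidence matrices `M` of `D_{g,h}` and
`N` of `TD_h` have different ranks over `F_2` (by computer, the ranks are `29` and `30`).

The example is `g (x, y) = x · y`, `h (x, y) = x · π y` on `F_2^4 × F_2^4`, where `π` is a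
permutation of `F_2^4` which cyclically rotates the three nonzero points of each line of a line
spread of `F_2^4` (so `π³ = id` and `y + π y + π² y = 0`).
-/

namespace Pool.Agent.Results.MP_52c3fe_co.RankDisproof

open Matrix

/-- `BF m` is the set of all functions `F_2^m → F_2`; addition is pointwise. -/
abbrev BF (m : ℕ) : Type := (Fin m → ZMod 2) → ZMod 2

/-- The sign `(-1)^a` of a bit `a`. -/
def sgn (a : ZMod 2) : ℤ := if a = 0 then 1 else -1

/-- The Walsh transform `W_f(u) = ∑_x (-1)^(f(x) + u·x)`. -/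
def walsh {m : ℕ} (f : BF m) (u : Fin m → ZMod 2) : ℤ :=
  ∑ x : Fin m → ZMod 2, sgn (f x + u ⬝ᵥ x)

/-- `f` is bent: `|W_f(u)| = 2^(m/2)` for all `u`. -/
def IsBent {m : ℕ} (f : BF m) : Prop := ∀ u : Fin m → ZMod 2, |walsh f u| = 2 ^ (m / 2)

/-- The dual `f^*` of a (bent) function, determined for bent `f` by
`W_f(u) = 2^(m/2) (-1)^(f^*(u))`: it is `0` where `W_f(u) = 2^(m/2)` and `1` elsewhere. -/
def dual {m : ℕ} (f : BF m) : BF m := fun u => if walsh f u = 2 ^ (m / 2) then 0 else 1

/-- The incidence matrix `M = (f_b(x))_{b,x}` of `D_{g,h}`,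
with `f_b(x) = g(b) + h(x+b) + (g+h)(x)`. -/
def matD {m : ℕ} (g h : BF m) : Matrix (Fin m → ZMod 2) (Fin m → ZMod 2) (ZMod 2) :=
  Matrix.of fun b x => g b + h (x + b) + (g + h) x

/-- The incidence matrix `N = (h(x+y))_{x,y}` of the translation design `TD_h`. -/
def matTD {m : ℕ} (h : BF m) : Matrix (Fin m → ZMod 2) (Fin m → ZMod 2) (ZMod 2) :=
  Matrix.of fun x y => h (x + y)

/-! ## Signs and characters -/

lemma sgn_add (a b : ZMod 2) : sgn (a + b) = sgn a * sgn b := by
  revert a b; decide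

lemma sgn_one_add (a : ZMod 2) : sgn (1 + a) = - sgn a := by
  revert a; decide

lemma sgn_abs (a : ZMod 2) : |sgn a| = 1 := by
  revert a; decide

lemma sgn_eq_one_iff (a : ZMod 2) : sgn a = 1 ↔ a = 0 := by
  revert a; decide

/-- The character sum `∑_x (-1)^(x·c)`. -/
lemma sum_sgn_dot {n : ℕ} (c : Fin n → ZMod 2) :
    ∑ x : Fin n → ZMod 2, sgn (x ⬝ᵥ c) = if c = 0 then 2 ^ n else 0 := by
  split_ifs with hc
  · have h0 : ∀ x : Fin n → ZMod 2, sgn (x ⬝ᵥ c) = 1 := by
      intro x
      rw [hc, dotProduct_zero]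
      rfl
    rw [Finset.sum_congr rfl (fun x _ => h0 x), Finset.sum_const, Finset.card_univ,
      Fintype.card_fun, ZMod.card, Fintype.card_fin]
    simp
  · obtain ⟨i, hi⟩ := Function.ne_iff.mp hc
    have h01 : ∀ t : ZMod 2, t ≠ 0 → t = 1 := by decide
    have hi1 : c i = 1 := h01 _ hi
    obtain ⟨e, he⟩ : ∃ e : Fin n → ZMod 2, e ⬝ᵥ c = 1 :=
      ⟨Pi.single i 1, by rw [single_dotProduct, hi1, mul_one]⟩
    have h1 : ∑ x : Fin n → ZMod 2, sgn ((e + x) ⬝ᵥ c)
        = ∑ x : Fin n → ZMod 2, sgn (x ⬝ᵥ c) :=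
      Equiv.sum_comp (Equiv.addLeft e) (fun x => sgn (x ⬝ᵥ c))
    have h2 : ∀ x : Fin n → ZMod 2, sgn ((e + x) ⬝ᵥ c) = - sgn (x ⬝ᵥ c) := by
      intro x
      rw [add_dotProduct, he, sgn_one_add]
    simp_rw [h2] at h1
    rw [Finset.sum_neg_distrib] at h1
    linarith

/-! ## Maiorana–McFarland functions -/

/-- The first `n` coordinates. -/
def fst' {n : ℕ} (z : Fin (n + n) → ZMod 2) : Fin n → ZMod 2 := fun i => z (Fin.castAdd n i)

/-- The last `n` coordinates. -/
def snd' {n : ℕ} (z : Fin (n + n) → ZMod 2) : Fin n → ZMod 2 := fun i => z (Fin.natAdd n i)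

/-- The function `(x, y) ↦ x · π(y)`. -/
def mm {n : ℕ} (p : (Fin n → ZMod 2) → (Fin n → ZMod 2)) : BF (n + n) :=
  fun z => fst' z ⬝ᵥ p (snd' z)

lemma fst'_append {n : ℕ} (x y : Fin n → ZMod 2) : fst' (Fin.append x y) = x := by
  funext i; exact Fin.append_left x y i

lemma snd'_append {n : ℕ} (x y : Fin n → ZMod 2) : snd' (Fin.append x y) = y := by
  funext i; exact Fin.append_right x y i

lemma dot_split {n : ℕ} (u v : Fin (n + n) → ZMod 2) :
    u ⬝ᵥ v = fst' u ⬝ᵥ fst' v + snd' u ⬝ᵥ snd' v := by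
  unfold dotProduct fst' snd'
  rw [Fin.sum_univ_add]

lemma dot_append {n : ℕ} (u : Fin (n + n) → ZMod 2) (x y : Fin n → ZMod 2) :
    u ⬝ᵥ Fin.append x y = fst' u ⬝ᵥ x + snd' u ⬝ᵥ y := by
  rw [dot_split, fst'_append, snd'_append]

lemma walsh_mm {n : ℕ} (p q : (Fin n → ZMod 2) → (Fin n → ZMod 2))
    (hpq : ∀ y, p (q y) = y) (hqp : ∀ y, q (p y) = y) (u : Fin (n + n) → ZMod 2) :
    walsh (mm p) u = 2 ^ n * sgn (snd' u ⬝ᵥ q (fst' u)) := by
  unfold walsh
  rw [← (Fin.appendEquiv n n).sum_comp, Fintype.sum_prod_type_right]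
  have key : ∀ y : Fin n → ZMod 2,
      ∑ x : Fin n → ZMod 2, sgn (mm p ((Fin.appendEquiv n n) (x, y))
        + u ⬝ᵥ ((Fin.appendEquiv n n) (x, y)))
      = if y = q (fst' u) then 2 ^ n * sgn (snd' u ⬝ᵥ y) else 0 := by
    intro y
    have h1 : ∀ x : Fin n → ZMod 2, sgn (mm p ((Fin.appendEquiv n n) (x, y))
        + u ⬝ᵥ ((Fin.appendEquiv n n) (x, y)))
        = sgn (snd' u ⬝ᵥ y) * sgn (x ⬝ᵥ (p y + fst' u)) := by
      intro x
      rw [← sgn_add]
      congr 1
      change fst' (Fin.append x y) ⬝ᵥ p (snd' (Fin.append x y)) + u ⬝ᵥ (Fin.append x y) = _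
      rw [fst'_append, snd'_append, dot_append, dotProduct_add, dotProduct_comm (fst' u) x]
      ring
    simp_rw [h1]
    rw [← Finset.mul_sum, sum_sgn_dot]
    by_cases hy : y = q (fst' u)
    · have : p y + fst' u = 0 := by
        rw [hy, hpq]
        ext i
        simp only [Pi.add_apply, Pi.zero_apply]
        exact CharTwo.add_self_eq_zero _
      rw [if_pos this, if_pos hy]
      ring
    · have : ¬ (p y + fst' u = 0) := by
        intro h0
        apply hy
        have : p y = fst' u := by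
          ext i
          have := congrFun h0 i
          simp only [Pi.add_apply, Pi.zero_apply] at this
          exact CharTwo.add_eq_zero.mp this
        rw [← this, hqp]
      rw [if_neg this, if_neg hy]
      simp
  simp_rw [key]
  simp

lemma isBent_mm {n : ℕ} (p q : (Fin n → ZMod 2) → (Fin n → ZMod 2))
    (hpq : ∀ y, p (q y) = y) (hqp : ∀ y, q (p y) = y) : IsBent (mm p) := by
  intro u
  rw [walsh_mm p q hpq hqp, abs_mul, sgn_abs, mul_one, abs_of_pos (by positivity)]
  congr 1
  omega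

lemma dual_mm {n : ℕ} (p q : (Fin n → ZMod 2) → (Fin n → ZMod 2))
    (hpq : ∀ y, p (q y) = y) (hqp : ∀ y, q (p y) = y) :
    dual (mm p) = fun u => snd' u ⬝ᵥ q (fst' u) := by
  funext u
  unfold dual
  rw [walsh_mm p q hpq hqp]
  have hn : (n + n) / 2 = n := by omega
  rw [hn]
  have h2 : (2 ^ n * sgn (snd' u ⬝ᵥ q (fst' u)) = 2 ^ n) ↔ (snd' u ⬝ᵥ q (fst' u) = 0) := by
    rw [← sgn_eq_one_iff]
    constructor
    · intro h
      have : (2 : ℤ) ^ n * sgn (snd' u ⬝ᵥ q (fst' u)) = 2 ^ n * 1 := by rw [h]; ring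
      exact mul_left_cancel₀ (by positivity) this
    · intro h; rw [h]; ring
  generalize snd' u ⬝ᵥ q (fst' u) = t at *
  by_cases ht : t = 0
  · rw [if_pos (h2.mpr ht), ht]
  · rw [if_neg (fun h => ht (h2.mp h))]
    revert ht; clear h2; revert t; decide

/-! ## The permutation `π` of `F_2^4` -/

/-- The permutation `π` of `F_2^4`, in algebraic normal form. -/
def perm (y : Fin 4 → ZMod 2) : Fin 4 → ZMod 2 :=
  ![y 2 + y 0 * y 1 * y 2 + y 0 * y 3,
    y 3 + y 1 * y 2 + y 0 * y 1 * y 3,
    y 0 + y 2 + y 1 * y 2 + y 0 * y 2 * y 3,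
    y 1 + y 3 + y 0 * y 3 + y 1 * y 2 * y 3]

lemma perm_add (y : Fin 4 → ZMod 2) : y + perm y = perm (perm y) := by
  have hy : y = ![y 0, y 1, y 2, y 3] := by
    ext i; fin_cases i <;> rfl
  rw [hy]
  generalize y 0 = a
  generalize y 1 = b
  generalize y 2 = c
  generalize y 3 = d
  revert a b c d
  decide

lemma perm_cube (y : Fin 4 → ZMod 2) : perm (perm (perm y)) = y := by
  have h1 := perm_add (perm y)
  rw [← perm_add y] at h1
  rw [← perm_add (perm y), ← perm_add y]
  ext i
  simp only [Pi.add_apply]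
  generalize perm y i = a
  generalize y i = b
  revert a b
  decide

lemma perm_left (y : Fin 4 → ZMod 2) : perm y + perm (perm y) = y := by
  rw [perm_add, perm_cube]

lemma perm_right (y : Fin 4 → ZMod 2) : perm (y + perm y) = y := by
  rw [perm_add, perm_cube]

lemma perm_third (y : Fin 4 → ZMod 2) : y + perm (perm y) = perm y := by
  rw [← perm_add y]
  ext i
  simp only [Pi.add_apply]
  rw [← add_assoc, CharTwo.add_self_eq_zero, zero_add]

/-- The functions of the example. -/
lemma mm_add {n : ℕ} (p q : (Fin n → ZMod 2) → (Fin n → ZMod 2)) :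
    mm p + mm q = mm (fun y => p y + q y) := by
  funext z
  simp only [Pi.add_apply, mm, dotProduct_add]

/-! ## Two identities for translates of `π` -/

/-- Six translations. -/
def bv : Fin 6 → (Fin 4 → ZMod 2) :=
  ![![0, 1, 1, 0], ![1, 1, 1, 0], ![1, 0, 0, 1], ![1, 1, 0, 1], ![1, 0, 1, 1], ![0, 1, 1, 1]]

/-- The eight elements of the hyperplane `y 3 = 0`. -/
def bw : Fin 8 → (Fin 4 → ZMod 2) :=
  ![![0, 0, 0, 0], ![1, 0, 0, 0], ![0, 1, 0, 0], ![1, 1, 0, 0],
    ![0, 0, 1, 0], ![1, 0, 1, 0], ![0, 1, 1, 0], ![1, 1, 1, 0]]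

lemma sum_bv (y : Fin 4 → ZMod 2) : ∑ j : Fin 6, perm (bv j + y) = y := by
  have hy : y = ![y 0, y 1, y 2, y 3] := by
    ext i; fin_cases i <;> rfl
  rw [hy]
  generalize y 0 = a
  generalize y 1 = b
  generalize y 2 = c
  generalize y 3 = d
  revert a b c d
  decide

lemma sum_bw_id : ∑ j : Fin 8, bw j = 0 := by
  decide

lemma sum_bw (y : Fin 4 → ZMod 2) : ∑ j : Fin 8, perm (bw j + y) = ![1, 0, 0, 0] := by
  have hy : y = ![y 0, y 1, y 2, y 3] := by
    ext i; fin_cases i <;> rfl
  rw [hy]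
  generalize y 0 = a
  generalize y 1 = b
  generalize y 2 = c
  generalize y 3 = d
  revert a b c d
  decide

/-! ## The two row spaces -/

/-- The row space of `N`. -/
def rowTD : Submodule (ZMod 2) (BF (4 + 4)) :=
  Submodule.span (ZMod 2) (Set.range (matTD (m := 4 + 4) (mm perm)).row)

lemma translate_mem (b : Fin (4 + 4) → ZMod 2) :
    (fun z => mm perm (b + z)) ∈ rowTD :=
  Submodule.subset_span ⟨b, rfl⟩

lemma fst'_add {n : ℕ} (u v : Fin (n + n) → ZMod 2) : fst' (u + v) = fst' u + fst' v := rfl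

lemma snd'_add {n : ℕ} (u v : Fin (n + n) → ZMod 2) : snd' (u + v) = snd' u + snd' v := rfl

lemma g_mem : mm (n := 4) (fun y => y) ∈ rowTD := by
  have h : mm (n := 4) (fun y => y)
      = ∑ j : Fin 6, (fun z => mm perm (Fin.append 0 (bv j) + z)) := by
    funext z
    rw [Finset.sum_apply]
    simp only [mm, fst'_add, snd'_add, fst'_append, snd'_append, zero_add]
    rw [← dotProduct_sum, sum_bv]
  rw [h]
  exact Submodule.sum_mem _ fun j _ => translate_mem _

/-- The first unit vector of `F_2^4`. -/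
def e0 : Fin 4 → ZMod 2 := ![1, 0, 0, 0]

lemma e0_dot : e0 ⬝ᵥ ![1, 0, 0, 0] = 1 := by decide

lemma one_mem : (fun _ => 1 : BF (4 + 4)) ∈ rowTD := by
  have h : (fun _ => 1 : BF (4 + 4))
      = ∑ j : Fin 8, ((fun z => mm perm (Fin.append 0 (bw j) + z))
          + (fun z => mm perm (Fin.append e0 (bw j) + z))) := by
    funext z
    rw [Finset.sum_apply]
    simp only [Pi.add_apply, mm, fst'_add, snd'_add, fst'_append, snd'_append, zero_add,
      add_dotProduct]
    have h2 : ∀ j : Fin 8, fst' z ⬝ᵥ perm (bw j + snd' z)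
        + (e0 ⬝ᵥ perm (bw j + snd' z) + fst' z ⬝ᵥ perm (bw j + snd' z))
        = e0 ⬝ᵥ perm (bw j + snd' z) := by
      intro j
      rw [add_comm, add_assoc, CharTwo.add_self_eq_zero, add_zero]
    rw [Finset.sum_congr rfl (fun j _ => h2 j), ← dotProduct_sum, sum_bw, e0_dot]
  rw [h]
  exact Submodule.sum_mem _ fun j _ => Submodule.add_mem _ (translate_mem _) (translate_mem _)

lemma const_mem (c : ZMod 2) : (fun _ => c : BF (4 + 4)) ∈ rowTD := by
  have h : (fun _ => c : BF (4 + 4)) = c • (fun _ => 1 : BF (4 + 4)) := by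
    funext z
    simp
  rw [h]
  exact Submodule.smul_mem _ _ one_mem

/-- The linear functional `f ↦ ∑_{z ∈ U} f z`, where `U` is the subspace
`{(x, y) : x ∈ {0, e0}, y 3 = 0}` of dimension four. -/
def fnl : BF (4 + 4) →ₗ[ZMod 2] ZMod 2 where
  toFun f := ∑ j : Fin 8, (f (Fin.append 0 (bw j)) + f (Fin.append e0 (bw j)))
  map_add' f g := by
    rw [← Finset.sum_add_distrib]
    refine Finset.sum_congr rfl fun j _ => ?_
    simp only [Pi.add_apply]
    ring
  map_smul' c f := by
    rw [RingHom.id_apply, smul_eq_mul, Finset.mul_sum]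
    refine Finset.sum_congr rfl fun j _ => ?_
    simp only [Pi.smul_apply, smul_eq_mul]
    ring

lemma fnl_apply (f : BF (4 + 4)) :
    fnl f = ∑ j : Fin 8, (f (Fin.append 0 (bw j)) + f (Fin.append e0 (bw j))) := rfl

lemma fnl_translate (b : Fin (4 + 4) → ZMod 2) : fnl (fun z => mm perm (b + z)) = 1 := by
  rw [fnl_apply]
  simp only [mm, fst'_add, snd'_add, fst'_append, snd'_append, add_zero, add_dotProduct]
  have h2 : ∀ j : Fin 8, fst' b ⬝ᵥ perm (snd' b + bw j)
        + (fst' b ⬝ᵥ perm (snd' b + bw j) + e0 ⬝ᵥ perm (snd' b + bw j))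
        = e0 ⬝ᵥ perm (bw j + snd' b) := by
    intro j
    rw [← add_assoc, CharTwo.add_self_eq_zero, zero_add, add_comm (bw j)]
  rw [Finset.sum_congr rfl (fun j _ => h2 j), ← dotProduct_sum, sum_bw, e0_dot]

lemma fnl_const (c : ZMod 2) : fnl (fun _ => c) = 0 := by
  rw [fnl_apply]
  simp only [CharTwo.add_self_eq_zero, Finset.sum_const_zero]

lemma fnl_g : fnl (mm (n := 4) (fun y => y)) = 0 := by
  rw [fnl_apply]
  simp only [mm, fst'_append, snd'_append, zero_dotProduct, zero_add]
  rw [← dotProduct_sum, sum_bw_id, dotProduct_zero]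

lemma row_matD (b : Fin (4 + 4) → ZMod 2) :
    (matD (m := 4 + 4) (mm (n := 4) (fun y => y)) (mm perm)).row b
      = (fun _ => mm (n := 4) (fun y => y) b) + (fun z => mm perm (b + z))
        + (mm (n := 4) (fun y => y) + (fun z => mm perm (0 + z))) := by
  funext x
  simp only [Matrix.row, matD, Matrix.of_apply, Pi.add_apply, zero_add]
  rw [add_comm x b]

lemma rank_lt :
    (matD (m := 4 + 4) (mm (n := 4) (fun y => y)) (mm perm)).rank
      < (matTD (m := 4 + 4) (mm perm)).rank := by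
  rw [Matrix.rank_eq_finrank_span_row, Matrix.rank_eq_finrank_span_row]
  apply Submodule.finrank_lt_finrank_of_lt
  have hle : Submodule.span (ZMod 2)
      (Set.range (matD (m := 4 + 4) (mm (n := 4) (fun y => y)) (mm perm)).row) ≤ rowTD := by
    rw [Submodule.span_le]
    rintro _ ⟨b, rfl⟩
    rw [row_matD]
    exact Submodule.add_mem _ (Submodule.add_mem _ (const_mem _) (translate_mem _))
      (Submodule.add_mem _ g_mem (translate_mem _))
  have hker : Submodule.span (ZMod 2)
      (Set.range (matD (m := 4 + 4) (mm (n := 4) (fun y => y)) (mm perm)).row)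
        ≤ LinearMap.ker fnl := by
    rw [Submodule.span_le]
    rintro _ ⟨b, rfl⟩
    rw [row_matD, SetLike.mem_coe, LinearMap.mem_ker, map_add, map_add, map_add, fnl_const,
      fnl_translate, fnl_translate, fnl_g]
    decide
  refine lt_of_le_of_ne hle ?_
  intro heq
  have h1 : (fun z => mm perm (0 + z)) ∈ Submodule.span (ZMod 2)
      (Set.range (matD (m := 4 + 4) (mm (n := 4) (fun y => y)) (mm perm)).row) := by
    have := translate_mem 0
    change _ ∈ rowTD at this
    rw [show rowTD = _ from heq.symm] at this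
    exact this
  have h2 := hker h1
  rw [LinearMap.mem_ker, fnl_translate] at h2
  exact one_ne_zero h2

/-- **Disproof of Q1.**  In dimension `m = 8` there are bent functions `g, h : F_2^8 → F_2` with
`g + h` bent and `(g + h)^* = g^* + h^*` such that the 2-rank of `D_{g,h}` is strictly smaller
than the 2-rank of the translation design `TD_h`. -/
theorem result :
    ∃ g h : BF 8, IsBent g ∧ IsBent h ∧ IsBent (g + h) ∧ dual (g + h) = dual g + dual h ∧
      (matD g h).rank < (matTD h).rank := by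
  have hid : ∀ y : Fin 4 → ZMod 2, (fun y : Fin 4 → ZMod 2 => y) ((fun y => y) y) = y :=
    fun _ => rfl
  have hg : IsBent (mm (n := 4) (fun y => y)) := isBent_mm _ (fun y => y) hid hid
  have hh : IsBent (mm perm) := isBent_mm _ (fun y => perm (perm y)) perm_cube perm_cube
  have hgh : IsBent (mm (n := 4) (fun y => y) + mm perm) := by
    rw [mm_add]
    exact isBent_mm _ perm perm_left perm_right
  have hd : dual (mm (n := 4) (fun y => y) + mm perm)
      = dual (mm (n := 4) (fun y => y)) + dual (mm perm) := by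
    rw [mm_add, dual_mm _ perm perm_left perm_right, dual_mm _ (fun y => y) hid hid,
      dual_mm _ (fun y => perm (perm y)) perm_cube perm_cube]
    funext u
    simp only [Pi.add_apply]
    rw [← dotProduct_add, perm_third]
  exact ⟨mm (n := 4) (fun y => y), mm perm, hg, hh, hgh, hd, rank_lt⟩

end Pool.Agent.Results.MP_52c3fe_co.RankDisproof
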